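import Mathlib

set_option autoImplicit false

namespace Pool.Agent.Results.MP_6623a1_co.Exact

open Finset

theorem lower {m : ℕ} {G : Type} [AddCommGroup G] [Finite G] (g : Fin (m + 1) → G)
    (h : ∀ k : Fin (m + 1) → ℕ, ∑ j, k j = m + 1 → ∑ j, k j • g j = ∑ j, g j → k = fun _ => 1) :
    2 ^ m ≤ Nat.card G := by
  classical
  let f : Finset (Fin m) → G := fun A => ∑ i ∈ A, (g i.succ - g 0)
  have key : ∀ A B : Finset (Fin m), A.card ≤ B.card → f A = f B → A = B := by
    intro A B hc e
    let u : Fin m → ℕ := fun i => (if i ∈ A then 1 else 0) + (if i ∈ B then 0 else 1)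
    have hB : ∀ i, (if i ∈ B then 0 else 1) + (if i ∈ B then 1 else 0) = 1 := fun i => by
      split_ifs <;> rfl
    have hA : ∀ A : Finset (Fin m), ∑ i, (if i ∈ A then 1 else 0) • g i.succ =
        f A + A.card • g 0 := by
      intro A
      simp [f, sum_sub_distrib]
    have s1 : ∑ i, u i + B.card = A.card + m := by
      have : ∑ i : Fin m, ((if i ∈ B then 0 else 1) + (if i ∈ B then 1 else 0)) = m := by
        simp [hB]
      rw [sum_add_distrib] at this
      simp only [u, sum_add_distrib]
      simp only [sum_boole, filter_mem_eq_inter, univ_inter, Nat.cast_id] at this ⊢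
      omega
    have s2 : ∑ i, u i • g i.succ + B.card • g 0 = ∑ i : Fin m, g i.succ + A.card • g 0 := by
      have : ∑ i : Fin m, ((if i ∈ B then 0 else 1) + (if i ∈ B then 1 else 0)) • g i.succ =
          ∑ i : Fin m, g i.succ := by simp [hB]
      simp only [add_smul, sum_add_distrib, hA] at this
      simp only [u, add_smul, sum_add_distrib, hA, e, ← this]
      abel
    obtain ⟨c, hc⟩ := Nat.exists_eq_add_of_le hc
    have := h (Fin.cons (1 + c) u) (by rw [Fin.sum_univ_succ]; simp; omega) (by
      rw [Fin.sum_univ_succ, Fin.sum_univ_succ]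
      simp only [Fin.cons_zero, Fin.cons_succ]
      rw [hc, add_smul] at s2
      rw [add_smul, one_smul, add_assoc, add_right_inj]
      apply add_right_cancel (b := A.card • g 0)
      rw [← s2]; abel)
    ext i
    have := congrFun this i.succ
    simp only [Fin.cons_succ, u] at this
    split_ifs at this <;> simp_all
  have hf : Function.Injective f := fun A B e =>
    (le_total A.card B.card).elim (fun h => key A B h e) fun h => (key B A h e.symm).symm
  simpa using Nat.card_le_card_of_injective f hf

theorem result (n : ℕ) (hn : 1 ≤ n) :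
    IsLeast {N : ℕ | ∃ (G : Type) (_ : AddCommGroup G) (_ : Finite G) (g : Fin n → G),
      Nat.card G = N ∧
      ∀ k : Fin n → ℕ, ∑ j, k j = n → ∑ j, k j • g j = ∑ j, g j → k = fun _ => 1}
      (2 ^ (n - 1)) := by
  obtain ⟨m, rfl⟩ : ∃ m, n = m + 1 := ⟨n - 1, by omega⟩
  refine ⟨⟨Fin m → ZMod 2, inferInstance, inferInstance, Fin.cons 0 fun i => Pi.single i 1,
    by simp, fun k h1 h2 => ?_⟩, ?_⟩
  · have h3 : ∀ i : Fin m, 1 ≤ k i.succ := by
      intro i
      have := congrFun h2 i
      simp [Fin.sum_univ_succ, Finset.sum_apply, Pi.single_apply] at this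
      by_contra h
      rw [show k i.succ = 0 by omega] at this
      simp at this
    have h4 : ∀ i : Fin m, Odd (k i.succ) := by
      intro i
      have := congrFun h2 i
      simp [Fin.sum_univ_succ, Finset.sum_apply, Pi.single_apply] at this
      exact ZMod.natCast_eq_one_iff_odd.mp this
    rw [Fin.sum_univ_succ] at h1
    have h5 : ∀ i : Fin m, k i.succ = 1 := by
      intro i
      have h6 : ∑ j : Fin m, (1 + if j = i then k i.succ - 1 else 0) ≤ ∑ j : Fin m, k j.succ := by
        refine sum_le_sum fun j _ => ?_
        have := h3 j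
        split_ifs with e
        · subst e; omega
        · omega
      simp [sum_add_distrib] at h6
      obtain ⟨c, hc⟩ := h4 i
      omega
    simp [h5] at h1
    ext j
    refine Fin.cases (by omega) h5 j
  · rintro N ⟨G, _, _, g, rfl, h⟩
    exact lower g h

end Pool.Agent.Results.MP_6623a1_co.Exact
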